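import Pool.Agent.H28.LF.T1

/-!
Row PIA of the board lfu_modules (MP_c59857_nt).
-/

set_option autoImplicit false

open MeasureTheory ProbabilityTheory Filter Topology Finset
open scoped Nat ENNReal

namespace Pool.Agent.H4.LF

open Pool.Agent.H24.T2 (Pset)
open Pool.Agent.H67.AG (avgP ul Inv)
open Pool.Agent.H28.LF

/-- the totient tends to infinity -/
private theorem totient_large (M r : ℕ) (hr : (2 * M)! < r) : M ≤ Nat.totient r := by
  by_contra hcon
  push Not at hcon
  have hr0 : 0 < r := by omega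
  have h1 : r ∣ (2 * M)! := by
    rw [Nat.dvd_iff_prime_pow_dvd_dvd]
    intro p k hp hk
    rcases Nat.eq_zero_or_pos k with h0 | h0
    · rw [h0, pow_zero]
      exact one_dvd _
    · have h2 : Nat.totient (p ^ k) ≤ Nat.totient r :=
        Nat.le_of_dvd (Nat.totient_pos.2 hr0) (Nat.totient_dvd_of_dvd hk)
      have h3 : Nat.totient (p ^ k) = p ^ (k - 1) * (p - 1) := Nat.totient_prime_pow hp h0
      have h4 : p ^ k = p ^ (k - 1) * p := by
        rw [← pow_succ]
        congr 1
        omega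
      have h5 : p ≤ 2 * (p - 1) := by
        have := hp.two_le
        omega
      have h6 : p ^ k ≤ 2 * (p ^ (k - 1) * (p - 1)) := by
        rw [h4]
        calc p ^ (k - 1) * p ≤ p ^ (k - 1) * (2 * (p - 1)) := Nat.mul_le_mul_left _ h5
          _ = _ := by ring
      exact Nat.dvd_factorial (pow_pos hp.pos k) (by omega)
  have h2 := Nat.le_of_dvd (Nat.factorial_pos _) h1
  omega

private theorem avgP_bound {W m : ℕ} {F : ℕ → ℝ} (h : ∀ p, |F p| ≤ 1) : |avgP W m F| ≤ 1 := by
  unfold avgP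
  rcases Nat.eq_zero_or_pos (Pset W m).card with h0 | h0
  · rw [h0, Nat.cast_zero, div_zero, abs_zero]
    exact zero_le_one
  · have h1 : (0 : ℝ) < ((Pset W m).card : ℝ) := by exact_mod_cast h0
    rw [abs_div, abs_of_pos h1, div_le_one h1]
    calc |∑ p ∈ Pset W m, F p| ≤ ∑ p ∈ Pset W m, |F p| := Finset.abs_sum_le_sum_abs _ _
      _ ≤ ∑ _p ∈ Pset W m, (1 : ℝ) := Finset.sum_le_sum fun p _ => h p
      _ = _ := by rw [Finset.sum_const, nsmul_eq_mul, mul_one]

/-- the pointwise limits -/
private theorem ptw (hI : T_EXI) (hR : T_EXR) (hRS : T_RSU) (ε : ℝ) (M w d : ℕ)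
    (hM : 1 / ε ≤ M) (hε : 0 < ε) (hw : (2 * M)! ≤ w) (hd : 0 < d) (x : Set.Ico (0 : ℝ) 1) :
    ∃ l : ℝ, Tendsto (fun m => avgP 2 m fun p =>
      Real.cos (2 * Real.pi * ((x : ℝ) * ((p * d : ℕ) : ℝ)))) atTop (𝓝 l) ∧ l ≤ 1 ∧
      ((¬ ∃ k : ℕ, ((w ! * d : ℕ) : ℝ) * (x : ℝ) = k) → l ≤ ε) := by
  have hle : ∀ l : ℝ, Tendsto (fun m => avgP 2 m fun p =>
      Real.cos (2 * Real.pi * ((x : ℝ) * ((p * d : ℕ) : ℝ)))) atTop (𝓝 l) → l ≤ 1 := by
    intro l hl
    refine le_of_tendsto hl (Eventually.of_forall fun m => ?_)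
    exact (le_abs_self _).trans (avgP_bound fun p => Real.abs_cos_le_one _)
  have hd0 : (0 : ℝ) < d := by exact_mod_cast hd
  by_cases hx : Irrational ((x : ℝ) * d)
  · have h1 := hI _ hx
    have h2 : (fun m => avgP 2 m fun p => Real.cos (2 * Real.pi * ((x : ℝ) * d * p))) =
        fun m => avgP 2 m fun p =>
          Real.cos (2 * Real.pi * ((x : ℝ) * ((p * d : ℕ) : ℝ))) := by
      funext m
      congr 1
      funext p
      congr 1
      push_cast
      ring
    rw [h2] at h1
    exact ⟨0, h1, hle 0 h1, fun _ => hε.le⟩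
  · rw [irrational_iff_ne_rational] at hx
    push Not at hx
    obtain ⟨a', b', hb', hab⟩ := hx
    obtain ⟨q, hq⟩ : ∃ q : ℚ, (q : ℝ) = (x : ℝ) * d := ⟨(a' : ℚ) / b', by rw [hab]; push_cast; rfl⟩
    have hq0 : 0 ≤ q := by
      have : (0 : ℝ) ≤ (q : ℝ) := by
        rw [hq]
        exact mul_nonneg x.2.1 hd0.le
      exact_mod_cast this
    obtain ⟨a, ha⟩ : ∃ a : ℕ, q.num = a := Int.eq_ofNat_of_zero_le (Rat.num_nonneg.2 hq0)
    have hr0 : 0 < q.den := q.den_pos
    haveI : NeZero q.den := ⟨hr0.ne'⟩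
    have hqe : (x : ℝ) * d = (a : ℝ) / (q.den : ℝ) := by
      rw [← hq, Rat.cast_def, ha]
      push_cast
      rfl
    have h1 := hR q.den a
    have h2 : (fun m => avgP 2 m fun p => Real.cos (2 * Real.pi * ((a : ℝ) * p / q.den))) =
        fun m => avgP 2 m fun p =>
          Real.cos (2 * Real.pi * ((x : ℝ) * ((p * d : ℕ) : ℝ))) := by
      funext m
      congr 1
      funext p
      congr 2
      push_cast
      have : (x : ℝ) * ((p : ℝ) * d) = ((x : ℝ) * d) * p := by ring
      rw [this, hqe]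
      ring
    rw [h2] at h1
    refine ⟨_, h1, hle _ h1, fun hk => ?_⟩
    have hcop : Nat.Coprime a q.den := by
      have := q.reduced
      rw [ha, Int.natAbs_natCast] at this
      exact this
    have hnd : ¬ q.den ∣ w ! := by
      rintro ⟨c, hc⟩
      apply hk
      refine ⟨c * a, ?_⟩
      push_cast
      have h3 : (w ! : ℝ) * d * (x : ℝ) = (w ! : ℝ) * ((x : ℝ) * d) := by ring
      have h4 : ((w ! : ℕ) : ℝ) = (q.den : ℝ) * c := by exact_mod_cast hc
      have h5 : (q.den : ℝ) ≠ 0 := by exact_mod_cast hr0.ne'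
      rw [h3, hqe, h4]
      field_simp
    have hrw : w < q.den := by
      by_contra hcon
      exact hnd (Nat.dvd_factorial hr0 (by omega))
    have h3 := totient_large M q.den (by omega)
    refine (le_abs_self _).trans ((hRS q.den a hcop).trans ?_)
    have h4 : (M : ℝ) ≤ (Nat.totient q.den : ℝ) := by exact_mod_cast h3
    have h5 : 0 < 1 / ε := by positivity
    have h6 : 1 / ε ≤ (Nat.totient q.den : ℝ) := hM.trans h4
    calc (1 : ℝ) / (Nat.totient q.den : ℝ) ≤ 1 / (1 / ε) := one_div_le_one_div_of_le h5 h6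
      _ = ε := one_div_one_div ε

private theorem inv_iter {Ω : Type} [MeasurableSpace Ω] (T : Ω ≃ᵐ Ω) {A : Set Ω}
    (hA : MeasurableSet[Inv T 1] A) (n : ℕ) : (T^[n]) ⁻¹' A = A := by
  have h1 : T ⁻¹' A = A := by
    have := (MeasurableSpace.measurableSet_invariants.1 hA).2
    simpa using this
  induction n with
  | zero => simp
  | succ n ih =>
    rw [Function.iterate_succ, Set.preimage_comp, ih, h1]

theorem pf_PIA (hS : T_SPM) (hI : T_EXI) (hR : T_EXR) (hRS : T_RSU) : T_PIA := by
  intro ε hε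
  obtain ⟨M, hM⟩ := exists_nat_ge (1 / ε)
  refine ⟨(2 * M)!, fun w hw Ω _ P _ T U f A d hT hU hf hf01 hA hd => ?_⟩
  have hAm : MeasurableSet A := (MeasurableSpace.measurableSet_invariants.1 hA).1
  set h : Ω → ℝ := A.indicator f with hh
  have hhm : Measurable h := hf.indicator hAm
  have hh1 : ∀ ω, |h ω| ≤ 1 := by
    intro ω
    rw [hh]
    by_cases hω : ω ∈ A
    · rw [Set.indicator_of_mem hω, abs_of_nonneg (hf01 ω).1]
      exact (hf01 ω).2
    · rw [Set.indicator_of_notMem hω, abs_zero]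
      exact zero_le_one
  obtain ⟨ν, hν, hsp, hmass⟩ := hS Ω P T h hT hhm hh1
  have hTn : ∀ n : ℕ, ∀ ω, (T^[n] ω ∈ A ↔ ω ∈ A) := by
    intro n ω
    have := inv_iter T hA n
    constructor
    · intro h1
      rw [← this]
      exact h1
    · intro h1
      rw [← this] at h1
      exact h1
  -- correlations
  have hcor : ∀ n : ℕ, ∫ ω in A, f ω * f (T^[n] ω) ∂P =
      ∫ x, Real.cos (2 * Real.pi * ((x : ℝ) * n)) ∂ν := by
    intro n
    rw [← hsp n, ← integral_indicator hAm]
    refine integral_congr_ae (Eventually.of_forall fun ω => ?_)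
    simp only [hh]
    by_cases hω : ω ∈ A
    · rw [Set.indicator_of_mem hω, Set.indicator_of_mem hω, Set.indicator_of_mem ((hTn n ω).2 hω)]
    · rw [Set.indicator_of_notMem hω, Set.indicator_of_notMem hω, zero_mul]
  set V : ℕ → Set.Ico (0 : ℝ) 1 → ℝ := fun m x => avgP 2 m fun p =>
    Real.cos (2 * Real.pi * ((x : ℝ) * ((p * d : ℕ) : ℝ))) with hV
  have hcosm : ∀ n : ℕ, Continuous fun x : Set.Ico (0 : ℝ) 1 =>
      Real.cos (2 * Real.pi * ((x : ℝ) * (n : ℝ))) := fun n => by fun_prop
  have hVm : ∀ m, Measurable (V m) := by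
    intro m
    rw [hV]
    unfold avgP
    refine Measurable.div_const ?_ _
    exact Finset.measurable_fun_sum _ fun p _ => (hcosm (p * d)).measurable
  have hcosi : ∀ n : ℕ, Integrable (fun x : Set.Ico (0 : ℝ) 1 =>
      Real.cos (2 * Real.pi * ((x : ℝ) * (n : ℝ)))) ν := fun n =>
    Integrable.of_bound (hcosm n).measurable.aestronglyMeasurable 1
      (Eventually.of_forall fun x => by
        rw [Real.norm_eq_abs]
        exact Real.abs_cos_le_one _)
  have hCd : ∀ m, (avgP 2 m fun p => ∫ ω in A, f ω * f (T^[p * d] ω) ∂P) = ∫ x, V m x ∂ν := by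
    intro m
    simp only [hV]
    unfold avgP
    rw [integral_div, integral_finsetSum _ fun p _ => hcosi (p * d)]
    congr 1
    exact Finset.sum_congr rfl fun p _ => hcor (p * d)
  choose Lf hL1 hL2 hL3 using fun x : Set.Ico (0 : ℝ) 1 =>
    ptw hI hR hRS ε M w d hM hε hw hd x
  have hV1 : ∀ m x, |V m x| ≤ 1 := fun m x => avgP_bound fun p => Real.abs_cos_le_one _
  have hlim : Tendsto (fun m => ∫ x, V m x ∂ν) atTop (𝓝 (∫ x, Lf x ∂ν)) := by
    refine tendsto_integral_of_dominated_convergence (fun _ => (1 : ℝ))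
      (fun m => (hVm m).aestronglyMeasurable) (integrable_const _)
      (fun m => Eventually.of_forall fun x => ?_) (Eventually.of_forall fun x => hL1 x)
    rw [Real.norm_eq_abs]
    exact hV1 m x
  have hCe : Cd U P T f A d = ∫ x, Lf x ∂ν := by
    unfold Cd ul
    have h1 : (fun m => avgP 2 m fun p => ∫ ω in A, f ω * f (T^[p * d] ω) ∂P) =
        fun m => ∫ x, V m x ∂ν := funext hCd
    rw [h1]
    exact (hlim.mono_left hU).limUnder_eq
  have hLm : Measurable Lf :=
    measurable_of_tendsto_metrizable hVm (tendsto_pi_nhds.2 hL1)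
  have hL4 : ∀ x, |Lf x| ≤ 1 := fun x => by
    have := (hL1 x).abs
    exact le_of_tendsto this (Eventually.of_forall fun m => hV1 m x)
  have hLi : Integrable Lf ν := Integrable.of_bound hLm.aestronglyMeasurable 1
    (Eventually.of_forall fun x => by
      rw [Real.norm_eq_abs]
      exact hL4 x)
  set N : ℕ := w ! * d with hN
  have hN0 : 0 < N := Nat.mul_pos (Nat.factorial_pos _) hd
  set S : Set (Set.Ico (0 : ℝ) 1) := {x | ∃ k : ℕ, (N : ℝ) * (x : ℝ) = k} with hSdef
  have hSm : MeasurableSet S := by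
    have : S = ⋃ k : ℕ, {x : Set.Ico (0 : ℝ) 1 | (N : ℝ) * (x : ℝ) = k} := by
      ext x
      simp only [hSdef, Set.mem_ofPred_eq, Set.mem_iUnion]
    rw [this]
    refine MeasurableSet.iUnion fun k => measurableSet_eq_fun ?_ measurable_const
    exact (continuous_const.mul continuous_subtype_val).measurable
  have hint : ∫ x, Lf x ∂ν ≤ ν.real S + ε * ν.real Set.univ := by
    have h1 : ∫ x, Lf x ∂ν ≤ ∫ x, (S.indicator (fun _ => (1 : ℝ)) x + ε) ∂ν := by
      refine integral_mono hLi ?_ fun x => ?_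
      · exact ((integrable_const (1 : ℝ)).indicator hSm).add (integrable_const _)
      · by_cases hx : x ∈ S
        · simp only [Set.indicator_of_mem hx]
          have := hL2 x
          linarith
        · simp only [Set.indicator_of_notMem hx]
          have := hL3 x hx
          linarith
    refine h1.trans (le_of_eq ?_)
    rw [integral_add ((integrable_const (1 : ℝ)).indicator hSm) (integrable_const _),
      integral_indicator hSm, setIntegral_const, integral_const, smul_eq_mul, smul_eq_mul, mul_one,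
      mul_comm ε]
  -- total mass
  have htot : ν.real Set.univ ≤ P.real A := by
    have h1 := hsp 0
    have h2 : ∫ x : Set.Ico (0 : ℝ) 1, Real.cos (2 * Real.pi * ((x : ℝ) * (0 : ℕ))) ∂ν =
        ν.real Set.univ := by
      simp
    rw [← h2, ← h1]
    have h3 : ∫ ω, h ω * h (T^[0] ω) ∂P ≤ ∫ ω, A.indicator (fun _ => (1 : ℝ)) ω ∂P := by
      refine integral_mono ?_ ((integrable_const (1 : ℝ)).indicator hAm) fun ω => ?_
      · refine Integrable.of_bound (hhm.mul hhm).aestronglyMeasurable 1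
          (Eventually.of_forall fun ω => ?_)
        simp only [Function.iterate_zero, id_eq, norm_mul, Real.norm_eq_abs]
        exact mul_le_one₀ (hh1 ω) (abs_nonneg _) (hh1 ω)
      · simp only [Function.iterate_zero, id_eq, hh]
        by_cases hω : ω ∈ A
        · rw [Set.indicator_of_mem hω, Set.indicator_of_mem hω]
          have := hf01 ω
          nlinarith
        · rw [Set.indicator_of_notMem hω, Set.indicator_of_notMem hω, zero_mul]
    refine h3.trans (le_of_eq ?_)
    rw [integral_indicator hAm, setIntegral_const, smul_eq_mul, mul_one]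
  -- the mass of `S`
  have hfi : Integrable f P := Integrable.of_bound hf.aestronglyMeasurable 1
    (Eventually.of_forall fun ω => by
      rw [Real.norm_eq_abs, abs_of_nonneg (hf01 ω).1]
      exact (hf01 ω).2)
  have hAN : MeasurableSet[Inv T N] A :=
    MeasurableSpace.measurableSet_invariants.2 ⟨hAm, inv_iter T hA N⟩
  have hind : P[h | Inv T N] =ᵐ[P] A.indicator (P[f | Inv T N]) := condExp_indicator hfi hAN
  have hE : ∀ n, ∀ᵐ ω ∂P, 0 ≤ (P[f | Inv T n]) ω ∧ (P[f | Inv T n]) ω ≤ 1 := by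
    intro n
    have h1 : 0 ≤ᵐ[P] P[f | Inv T n] := condExp_nonneg (Eventually.of_forall fun ω => (hf01 ω).1)
    have h2 : P[f | Inv T n] ≤ᵐ[P] P[fun _ => (1 : ℝ) | Inv T n] :=
      condExp_mono hfi (integrable_const _) (Eventually.of_forall fun ω => (hf01 ω).2)
    rw [condExp_const (MeasurableSpace.invariants_le _)] at h2
    filter_upwards [h1, h2] with ω h3 h4
    exact ⟨h3, h4⟩
  have hSmass : ν.real S = ∫ ω in A, ((P[f | Inv T N]) ω) ^ 2 ∂P := by
    rw [hSdef, hmass N hN0, ← integral_indicator hAm]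
    refine integral_congr_ae ?_
    filter_upwards [hind] with ω h1
    rw [h1]
    by_cases hω : ω ∈ A
    · rw [Set.indicator_of_mem hω, Set.indicator_of_mem hω]
    · rw [Set.indicator_of_notMem hω, Set.indicator_of_notMem hω]
      norm_num
  have hEi : ∀ n, Integrable (fun ω => ((P[f | Inv T n]) ω) ^ 2) (P.restrict A) := by
    intro n
    refine Integrable.of_bound ?_ 1 ?_
    · exact ((integrable_condExp.aestronglyMeasurable).pow 2).mono_measure Measure.restrict_le_self
    · filter_upwards [ae_restrict_of_ae (hE n)] with ω h1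
      rw [Real.norm_eq_abs, abs_of_nonneg (sq_nonneg _)]
      exact pow_le_one₀ h1.1 h1.2
  have hDi : Integrable (fun ω => |(P[f | Inv T N]) ω - (P[f | Inv T 1]) ω|) (P.restrict A) :=
    ((integrable_condExp.sub integrable_condExp).abs).mono_measure Measure.restrict_le_self
  have hfin : ∫ ω in A, ((P[f | Inv T N]) ω) ^ 2 ∂P ≤ ∫ ω in A, ((P[f | Inv T 1]) ω) ^ 2 ∂P +
      2 * ∫ ω in A, |(P[f | Inv T N]) ω - (P[f | Inv T 1]) ω| ∂P := by
    rw [← integral_const_mul, ← integral_add (hEi 1) (hDi.const_mul 2)]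
    refine integral_mono_ae (hEi N) ((hEi 1).add (hDi.const_mul 2)) ?_
    filter_upwards [ae_restrict_of_ae (hE N), ae_restrict_of_ae (hE 1)] with ω h1 h2
    have h3 := le_abs_self ((P[f | Inv T N]) ω - (P[f | Inv T 1]) ω)
    have h4 := neg_abs_le ((P[f | Inv T N]) ω - (P[f | Inv T 1]) ω)
    have h5 := abs_nonneg ((P[f | Inv T N]) ω - (P[f | Inv T 1]) ω)
    have h6 : ((P[f | Inv T N]) ω) ^ 2 - ((P[f | Inv T 1]) ω) ^ 2 =
        ((P[f | Inv T N]) ω - (P[f | Inv T 1]) ω) *
          ((P[f | Inv T N]) ω + (P[f | Inv T 1]) ω) := by ring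
    nlinarith [mul_le_mul_of_nonneg_right h3 (add_nonneg h1.1 h2.1)]
  rw [hCe]
  refine hint.trans ?_
  rw [hSmass]
  have := mul_le_mul_of_nonneg_left htot hε.le
  linarith

end Pool.Agent.H4.LF
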